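import Mathlib

set_option autoImplicit false

/-!
# Blaschke products in the right half plane
-/

open Filter Topology Complex Bornology Asymptotics

namespace Q195.SZ

theorem abs_add_pos {u : ℂ} (hu : 0 ≤ u.re) {τ : ℝ} (hτ : 0 < τ) : 0 < ‖u + τ‖ := by
  have h1 : (u + τ).re ≤ ‖u + τ‖ := Complex.re_le_norm _
  simp at h1
  linarith

/-- Dividing by one factor. -/
theorem blaschke_one {Φ : ℂ → ℂ} {M : ℝ} (hd : DiffContOnCl ℂ Φ {z | 0 < z.re})
    (hM : ∀ u : ℂ, 0 ≤ u.re → ‖Φ u‖ ≤ M) {τ : ℝ} (hτ : 0 < τ) (h0 : Φ τ = 0) :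
    ∃ Ψ : ℂ → ℂ, DiffContOnCl ℂ Ψ {z | 0 < z.re} ∧ (∀ u : ℂ, 0 ≤ u.re → ‖Ψ u‖ ≤ M) ∧
      ∀ u : ℂ, (u + τ) * Φ u = (u - τ) * Ψ u := by
  have hM0 : 0 ≤ M := (norm_nonneg _).trans (hM 0 (by simp))
  have hopen : IsOpen {z : ℂ | 0 < z.re} := isOpen_lt continuous_const Complex.continuous_re
  have hcl : closure {z : ℂ | 0 < z.re} = {z : ℂ | 0 ≤ z.re} := Complex.closure_setOfPred_lt_re 0
  have hmem : {z : ℂ | 0 < z.re} ∈ 𝓝 (τ : ℂ) := hopen.mem_nhds (by simpa using hτ)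
  have hdo : DifferentiableOn ℂ (dslope Φ τ) {z : ℂ | 0 < z.re} :=
    (Complex.differentiableOn_dslope hmem).2 hd.differentiableOn
  have hco : ContinuousOn (dslope Φ τ) {z : ℂ | 0 ≤ z.re} := by
    refine (continuousOn_dslope ?_).2 ⟨?_, hd.differentiableOn.differentiableAt hmem⟩
    · exact mem_of_superset hmem (fun z (hz : 0 < z.re) => (le_of_lt hz : 0 ≤ z.re))
    · rw [← hcl]; exact hd.continuousOn
  have hdc : DiffContOnCl ℂ (fun u => (u + τ) * dslope Φ τ u) {z | 0 < z.re} := by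
    refine ⟨(differentiable_id.differentiableOn.add_const _).mul hdo, ?_⟩
    rw [hcl]
    exact (continuous_id.continuousOn.add continuousOn_const).mul hco
  have hrel : ∀ u : ℂ, (u + τ) * Φ u = (u - τ) * ((u + τ) * dslope Φ τ u) := by
    intro u
    have h1 := sub_smul_dslope Φ (τ : ℂ) u
    rw [smul_eq_mul, h0, sub_zero] at h1
    rw [← h1]
    ring
  refine ⟨fun u => (u + τ) * dslope Φ τ u, hdc, ?_, hrel⟩
  -- boundedness far away
  have hfar : ∀ u : ℂ, 0 ≤ u.re → 1 ≤ ‖u - τ‖ → ‖(u + τ) * dslope Φ τ u‖ ≤ (1 + 2 * τ) * M := by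
    intro u hu h1
    have h2 : ‖u - τ‖ * ‖(u + τ) * dslope Φ τ u‖ = ‖u + τ‖ * ‖Φ u‖ := by
      rw [← norm_mul, ← hrel, norm_mul]
    have h3 : ‖u + τ‖ ≤ (1 + 2 * τ) * ‖u - τ‖ := by
      have h4 : ‖u + τ‖ ≤ ‖u - τ‖ + 2 * τ := by
        have h5 : u + τ = (u - τ) + ((2 * τ : ℝ) : ℂ) := by push_cast; ring
        rw [h5]
        refine (norm_add_le _ _).trans ?_
        rw [Complex.norm_real, Real.norm_eq_abs, abs_of_pos (by positivity)]
      nlinarith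
    have h6 : 0 < ‖u - τ‖ := by linarith
    have h7 : ‖u - τ‖ * ‖(u + τ) * dslope Φ τ u‖ ≤ ‖u - τ‖ * ((1 + 2 * τ) * M) := by
      rw [h2]
      calc ‖u + τ‖ * ‖Φ u‖ ≤ ((1 + 2 * τ) * ‖u - τ‖) * M :=
            mul_le_mul h3 (hM u hu) (norm_nonneg _) (by positivity)
        _ = _ := by ring
    exact le_of_mul_le_mul_left h7 h6
  have hgrow : ∃ c < (2 : ℝ), ∃ B, (fun u : ℂ => (u + τ) * dslope Φ τ u)
      =O[cobounded ℂ ⊓ 𝓟 {z | 0 < z.re}] fun z => Real.exp (B * ‖z‖ ^ c) := by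
    refine ⟨1, one_lt_two, 0, ?_⟩
    refine IsBigO.of_bound ((1 + 2 * τ) * M) ?_
    rw [eventually_inf_principal]
    have h8 : ∀ᶠ u : ℂ in cobounded ℂ, τ + 1 ≤ ‖u‖ := tendsto_norm_cobounded_atTop.eventually_ge_atTop _
    filter_upwards [h8] with u hu h9
    have h10 : 1 ≤ ‖u - τ‖ := by
      have := norm_sub_norm_le u (τ : ℂ)
      rw [Complex.norm_real, Real.norm_eq_abs, abs_of_pos hτ] at this
      linarith
    have h11 := hfar u (le_of_lt h9) h10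
    simpa using h11
  intro u hu
  refine PhragmenLindelof.right_half_plane_of_bounded_on_real (f := fun u => (u + τ) * dslope Φ τ u)
    hdc hgrow ?_ ?_ hu
  · refine ⟨(1 + 2 * τ) * M, ?_⟩
    rw [eventually_map]
    filter_upwards [eventually_ge_atTop (τ + 1)] with x hx
    have hx0 : 0 ≤ x := by linarith
    refine hfar x (by simpa using hx0) ?_
    rw [← Complex.ofReal_sub, Complex.norm_real, Real.norm_eq_abs, abs_of_nonneg (by linarith)]
    linarith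
  · intro x
    have h1 : ‖(x : ℂ) * I + τ‖ = ‖(x : ℂ) * I - τ‖ := by
      have h2 : ‖(x : ℂ) * I + τ‖ ^ 2 = ‖(x : ℂ) * I - τ‖ ^ 2 := by
        rw [Complex.sq_norm, Complex.sq_norm, Complex.normSq_apply, Complex.normSq_apply]
        simp
      exact (pow_left_inj₀ (norm_nonneg _) (norm_nonneg _) two_ne_zero).1 h2
    have hpos : 0 < ‖(x : ℂ) * I + τ‖ := abs_add_pos (by simp) hτ
    have h2 := congrArg norm (hrel ((x : ℂ) * I))
    rw [norm_mul, norm_mul (_ - _), ← h1] at h2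
    have h3 := mul_left_cancel₀ hpos.ne' h2
    rw [← h3]
    exact hM _ (by simp)

/-- Bound by a finite Blaschke product. -/
theorem blaschke (S : Finset ℝ) : ∀ {Φ : ℂ → ℂ} {M : ℝ}, DiffContOnCl ℂ Φ {z | 0 < z.re} →
    (∀ u : ℂ, 0 ≤ u.re → ‖Φ u‖ ≤ M) → (∀ τ ∈ S, 0 < τ) → (∀ τ ∈ S, Φ τ = 0) →
    ∀ u : ℂ, 0 ≤ u.re → ‖Φ u‖ ≤ M * ∏ τ ∈ S, (‖u - τ‖ / ‖u + τ‖) := by
  classical
  induction S using Finset.induction_on with
  | empty => intro Φ M _ hM _ _ u hu; simpa using hM u hu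
  | insert τ S hτS ih =>
    intro Φ M hd hM hpos hz u hu
    have hτ : 0 < τ := hpos τ (Finset.mem_insert_self _ _)
    obtain ⟨Ψ, h1, h2, h3⟩ := blaschke_one hd hM hτ (hz τ (Finset.mem_insert_self _ _))
    have h4 : ∀ σ ∈ S, Ψ σ = 0 := by
      intro σ hσ
      have h5 := h3 σ
      rw [hz σ (Finset.mem_insert_of_mem hσ), mul_zero] at h5
      have h6 : (σ : ℂ) - τ ≠ 0 := by
        intro h7
        have : (σ : ℂ) = τ := sub_eq_zero.1 h7
        have h8 : σ = τ := by exact_mod_cast this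
        exact hτS (h8 ▸ hσ)
      exact (mul_eq_zero.1 h5.symm).resolve_left h6
    have h5 := ih h1 h2 (fun σ hσ => hpos σ (Finset.mem_insert_of_mem hσ)) h4 u hu
    rw [Finset.prod_insert hτS]
    have h6 : 0 < ‖u + τ‖ := abs_add_pos hu hτ
    have h7 : ‖u + τ‖ * ‖Φ u‖ = ‖u - τ‖ * ‖Ψ u‖ := by rw [← norm_mul, h3, norm_mul]
    have h8 : ‖Φ u‖ = ‖u - τ‖ / ‖u + τ‖ * ‖Ψ u‖ := by
      field_simp
      linarith
    rw [h8]
    calc ‖u - τ‖ / ‖u + τ‖ * ‖Ψ u‖ ≤ ‖u - τ‖ / ‖u + τ‖ * (M * ∏ τ ∈ S, (‖u - τ‖ / ‖u + τ‖)) :=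
          mul_le_mul_of_nonneg_left h5 (by positivity)
      _ = _ := by ring

/-- One factor. -/
theorem factor_le {u : ℂ} (hu : 0 ≤ u.re) {τ X : ℝ} (hτ : 0 < τ) (h1 : ‖u‖ ≤ τ) (h2 : τ ≤ X) :
    ‖u - τ‖ / ‖u + τ‖ ≤ Real.exp (-(u.re / (2 * X))) := by
  have hX : 0 < X := hτ.trans_le h2
  have hp : 0 < ‖u + τ‖ := abs_add_pos hu hτ
  have e1 : ‖u - τ‖ ^ 2 = ‖u + τ‖ ^ 2 - 4 * u.re * τ := by
    rw [Complex.sq_norm, Complex.sq_norm, Complex.normSq_apply, Complex.normSq_apply]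
    simp
    ring
  have e2 : ‖u + τ‖ ≤ 2 * τ := by
    refine (norm_add_le _ _).trans ?_
    rw [Complex.norm_real, Real.norm_eq_abs, abs_of_pos hτ]
    linarith
  have e3 : (‖u - τ‖ / ‖u + τ‖) ^ 2 ≤ 1 - u.re / X := by
    rw [div_pow, e1, sub_div, div_self (by positivity)]
    have : u.re / X ≤ 4 * u.re * τ / ‖u + τ‖ ^ 2 := by
      rw [div_le_div_iff₀ hX (by positivity)]
      have h3 : ‖u + τ‖ ^ 2 ≤ 4 * τ * X := by nlinarith
      nlinarith
    linarith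
  have e4 : 1 - u.re / X ≤ Real.exp (-(u.re / X)) := by
    have := Real.add_one_le_exp (-(u.re / X))
    linarith
  have e5 : Real.exp (-(u.re / X)) = (Real.exp (-(u.re / (2 * X)))) ^ 2 := by
    rw [← Real.exp_nat_mul]
    congr 1
    push_cast
    field_simp
  refine le_of_sq_le_sq ?_ (Real.exp_pos _).le
  rw [← e5]
  exact e3.trans e4

end Q195.SZ
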