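import Pool.Agent.Q195.SZ.Det2

set_option autoImplicit false

/-!
# Three valued sequences with an exponentially decaying kernel sum are deterministic
-/

open Filter Topology Complex

namespace Q195.SZ

theorem abs_le_one_of_three {x : ℝ} (h : x = -1 ∨ x = 0 ∨ x = 1) : |x| ≤ 1 := by
  rcases h with h | h | h <;> rw [h] <;> norm_num

/-- Limits along an ultrafilter. -/
theorem exists_lim {b : ℤ → ℝ} (hb : ∀ n, b n = -1 ∨ b n = 0 ∨ b n = 1) (U : Ultrafilter ℕ)
    (p : ℕ → ℤ) : ∃ x : ℤ → ℝ, (∀ n, x n = -1 ∨ x n = 0 ∨ x n = 1) ∧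
      ∀ m, ∀ᶠ N in (U : Filter ℕ), b (m + p N) = x m := by
  have h : ∀ m, ∃ v : ℝ, (v = -1 ∨ v = 0 ∨ v = 1) ∧ ∀ᶠ N in (U : Filter ℕ), b (m + p N) = v := by
    intro m
    have h1 : ∀ᶠ N in (U : Filter ℕ), b (m + p N) = -1 ∨ b (m + p N) = 0 ∨ b (m + p N) = 1 :=
      Eventually.of_forall fun N => hb _
    rcases Ultrafilter.eventually_or.1 h1 with h2 | h2
    · exact ⟨-1, Or.inl rfl, h2⟩
    · rcases Ultrafilter.eventually_or.1 h2 with h3 | h3
      · exact ⟨0, Or.inr (Or.inl rfl), h3⟩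
      · exact ⟨1, Or.inr (Or.inr rfl), h3⟩
  choose x hx1 hx2 using h
  exact ⟨x, hx1, hx2⟩

theorem lim_bound {b : ℤ → ℝ} (hb : ∀ n, b n = -1 ∨ b n = 0 ∨ b n = 1) {C κ : ℝ}
    (hK : ∀ u : ℂ, 0 ≤ u.re → ‖KK b (2 + u)‖ ≤ C * Real.exp (-(κ * u.re))) (U : Ultrafilter ℕ)
    {p : ℕ → ℤ} {x : ℤ → ℝ} (hx : ∀ m, ∀ᶠ N in (U : Filter ℕ), b (m + p N) = x m) {u : ℂ}
    (hu : 0 ≤ u.re) : ‖KK x (2 + u)‖ ≤ C * Real.exp (-(κ * u.re)) := by
  have ht : 1 ≤ (2 + u).re := by simp; linarith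
  have h1 : Tendsto (fun N => KK (fun m => b (m + p N)) (2 + u)) (U : Filter ℕ) (𝓝 (KK x (2 + u))) := by
    unfold KK
    refine tendsto_tsum_of_dominated_convergence (bound := fun n : ℤ => 1 * (1 / ‖(2 + u) + n * I‖ ^ 2))
      ((summ_term ht).mul_left 1) (fun m => ?_) (Eventually.of_forall fun N m => ?_)
    · refine tendsto_const_nhds.congr' ?_
      filter_upwards [hx m] with N hN
      rw [hN]
    · exact norm_K_term (b := fun m => b (m + p N)) (fun n => abs_le_one_of_three (hb _)) (2 + u) m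
  refine le_of_tendsto h1.norm (Eventually.of_forall fun N => ?_)
  rw [KK_shift]
  have h2 := hK (u - p N * I) (by simpa using hu)
  have e : (2 : ℂ) + (u - p N * I) = 2 + u - p N * I := by ring
  rw [e] at h2
  refine h2.trans (le_of_eq ?_)
  congr 3
  simp

theorem deterministic {b : ℤ → ℝ} (hb : ∀ n, b n = -1 ∨ b n = 0 ∨ b n = 1) {C κ : ℝ} (hκ : 0 < κ)
    (hK : ∀ u : ℂ, 0 ≤ u.re → ‖KK b (2 + u)‖ ≤ C * Real.exp (-(κ * u.re))) :
    ∃ N : ℕ, ∀ p q : ℤ, (∀ k : ℤ, 1 ≤ k → k ≤ N → b (p - k) = b (q - k)) → b p = b q := by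
  by_contra hcon
  push Not at hcon
  choose p q h1 h2 using hcon
  set U : Ultrafilter ℕ := hyperfilter ℕ with hU
  obtain ⟨x, hx1, hx2⟩ := exists_lim hb U p
  obtain ⟨y, hy1, hy2⟩ := exists_lim hb U q
  have hneg : ∀ n < 0, x n - y n = 0 := by
    intro n hn
    have h3 : ∀ᶠ N in (U : Filter ℕ), n.natAbs ≤ N :=
      (eventually_ge_atTop _).filter_mono Nat.hyperfilter_le_atTop
    obtain ⟨N, hN1, hN2, hN3⟩ := (h3.and ((hx2 n).and (hy2 n))).exists
    have h4 := h1 N (-n) (by omega) (by omega)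
    have e1 : p N - -n = n + p N := by ring
    have e2 : q N - -n = n + q N := by ring
    rw [e1, e2, hN2, hN3] at h4
    rw [h4, sub_self]
  have hd : ∀ n, |x n - y n| ≤ 2 := by
    intro n
    refine (abs_sub _ _).trans ?_
    have := abs_le_one_of_three (hx1 n)
    have := abs_le_one_of_three (hy1 n)
    linarith
  have hKd : ∀ u : ℂ, 0 ≤ u.re → ‖KK (fun n => x n - y n) (2 + u)‖ ≤ (2 * C) * Real.exp (-(κ * u.re)) := by
    intro u hu
    have ht : 1 ≤ (2 + u).re := by simp; linarith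
    have e : KK (fun n => x n - y n) (2 + u) = KK x (2 + u) - KK y (2 + u) := by
      unfold KK
      rw [← (summ_K (fun n => abs_le_one_of_three (hx1 n)) ht).tsum_sub
        (summ_K (fun n => abs_le_one_of_three (hy1 n)) ht)]
      refine tsum_congr fun n => ?_
      push_cast
      ring
    rw [e]
    have := lim_bound hb hK U hx2 hu
    have := lim_bound hb hK U hy2 hu
    have := norm_sub_le (KK x (2 + u)) (KK y (2 + u))
    linarith
  have h0 := det_zero hκ (by norm_num : (0 : ℝ) ≤ 2) hd hneg hKd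
  obtain ⟨N, hN1, hN2⟩ := ((hx2 0).and (hy2 0)).exists
  rw [zero_add] at hN1 hN2
  apply h2 N
  rw [hN1, hN2]
  linarith

/-- There is no three valued sequence with exactly one zero and an exponentially decaying kernel
sum. -/
theorem no_gap {b : ℤ → ℝ} (hb : ∀ n, n ≠ 0 → b n = -1 ∨ b n = 1) (hb0 : b 0 = 0) {C κ : ℝ}
    (hκ : 0 < κ) (hK : ∀ u : ℂ, 0 ≤ u.re → ‖KK b (2 + u)‖ ≤ C * Real.exp (-(κ * u.re))) : False := by
  have hb3 : ∀ n, b n = -1 ∨ b n = 0 ∨ b n = 1 := by
    intro n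
    by_cases hn : n = 0
    · subst hn; exact Or.inr (Or.inl hb0)
    · rcases hb n hn with h | h
      · exact Or.inl h
      · exact Or.inr (Or.inr h)
  obtain ⟨N, hN⟩ := deterministic hb3 hκ hK
  let f : ℕ → (Fin N → ({-1, 0, 1} : Finset ℝ)) := fun j k =>
    ⟨b (-(j : ℤ) - ((k : ℕ) + 1)), by
      rcases hb3 (-(j : ℤ) - ((k : ℕ) + 1)) with h | h | h <;> rw [h] <;> simp⟩
  obtain ⟨j, j', hjj, hf⟩ := Finite.exists_ne_map_eq_of_infinite f
  have key : ∀ j j' : ℕ, j < j' → f j = f j' → False := by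
    intro j j' hlt hf
    have hblock : ∀ k : ℤ, 1 ≤ k → k ≤ N → b (-(j : ℤ) - k) = b (-(j' : ℤ) - k) := by
      intro k hk1 hk2
      have h1 := congrFun hf ⟨(k - 1).toNat, by omega⟩
      have h2 := congrArg Subtype.val h1
      have e : ((((k - 1).toNat : ℕ) : ℤ) + 1) = k := by omega
      have h3 : b (-(j : ℤ) - ((((k - 1).toNat : ℕ) : ℤ) + 1)) =
        b (-(j' : ℤ) - ((((k - 1).toNat : ℕ) : ℤ) + 1)) := h2
      rw [e] at h3
      exact h3
    have hall : ∀ m : ℕ, b (-(j : ℤ) + m) = b (-(j' : ℤ) + m) := by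
      intro m
      induction m using Nat.strong_induction_on with
      | _ m ih =>
        apply hN
        intro k hk1 hk2
        rcases le_or_gt k m with h | h
        · have h1 := ih (m - k.toNat) (by omega)
          have e : (((m - k.toNat : ℕ) : ℤ)) = m - k := by omega
          rw [e] at h1
          have e1 : -(j : ℤ) + m - k = -(j : ℤ) + (m - k) := by ring
          have e2 : -(j' : ℤ) + m - k = -(j' : ℤ) + (m - k) := by ring
          rw [e1, e2]
          exact h1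
        · have h1 := hblock (k - m) (by omega) (by omega)
          have e1 : -(j : ℤ) + m - k = -(j : ℤ) - (k - m) := by ring
          have e2 : -(j' : ℤ) + m - k = -(j' : ℤ) - (k - m) := by ring
          rw [e1, e2]
          exact h1
    have h1 := hall j'
    rw [neg_add_cancel, hb0] at h1
    rcases hb (-(j : ℤ) + j') (by omega) with h | h <;> rw [h] at h1 <;> norm_num at h1
  rcases lt_or_gt_of_ne hjj with h | h
  · exact key j j' h hf
  · exact key j' j h hf.symm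

end Q195.SZ
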