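import Pool.Agent.Q195.SZ.Decay

set_option autoImplicit false

/-!
# Counting the real zeros
-/

open Filter Topology Complex Bornology Asymptotics Metric

namespace Q195.SZ

/-- The real function. -/
noncomputable def ff (a : ℕ → ℝ) (t : ℝ) : ℝ := ∑' n : ℕ, a (n + 1) / (t ^ 2 + ((n : ℝ) + 1) ^ 2)

/-- The zeros in an interval. -/
def ZZ (a : ℕ → ℝ) (X : ℝ) : Set ℝ := {t | |t| < X ∧ ff a t = 0}

theorem FF_real (a : ℕ → ℝ) (t : ℝ) : FF a t = (ff a t : ℂ) := by
  unfold FF ff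
  rw [Complex.ofReal_tsum]
  refine tsum_congr fun n => ?_
  push_cast
  ring

theorem ff_even (a : ℕ → ℝ) (t : ℝ) : ff a (-t) = ff a t := by
  unfold ff
  simp only [neg_sq]

/-- Differentiability in the strip. -/
theorem FF_diff_strip {a : ℕ → ℝ} (ha : ∀ n, |a (n + 1)| ≤ 1) :
    DifferentiableOn ℂ (FF a) {t | |t.im| < 1} := by
  have hopen : ∀ δ : ℝ, IsOpen {t : ℂ | |t.im| < δ} := fun δ =>
    isOpen_lt (continuous_abs.comp Complex.continuous_im) continuous_const
  have hden : ∀ {δ : ℝ}, 0 ≤ δ → δ < 1 → ∀ (n : ℕ) {z : ℂ}, |z.im| < δ →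
      (1 - δ ^ 2) * ((n : ℝ) + 1) ^ 2 ≤ ‖z ^ 2 + ((n : ℂ) + 1) ^ 2‖ := by
    intro δ hδ0 hδ n z hz
    have h1 := Complex.re_le_norm (z ^ 2 + ((n : ℂ) + 1) ^ 2)
    have h2 : (z ^ 2 + ((n : ℂ) + 1) ^ 2).re = z.re ^ 2 - z.im ^ 2 + ((n : ℝ) + 1) ^ 2 := by
      have e : ((n : ℂ) + 1) ^ 2 = ((((n : ℝ) + 1) ^ 2 : ℝ) : ℂ) := by push_cast; ring
      rw [e, Complex.add_re, Complex.ofReal_re, sq z, Complex.mul_re]
      ring
    have h3 : z.im ^ 2 ≤ δ ^ 2 := by
      rw [← sq_abs]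
      exact pow_le_pow_left₀ (abs_nonneg _) hz.le 2
    have hn : (0 : ℝ) ≤ n := Nat.cast_nonneg n
    rw [h2] at h1
    nlinarith [sq_nonneg z.re, mul_nonneg (sq_nonneg δ) (by nlinarith : (0 : ℝ) ≤ ((n : ℝ) + 1) ^ 2 - 1)]
  intro t ht
  have ht1 : |t.im| < 1 := ht
  set δ := (1 + |t.im|) / 2 with hδ
  have hδ0 : 0 ≤ δ := by have := abs_nonneg t.im; linarith
  have hδ1 : δ < 1 := by linarith
  have hδ2 : |t.im| < δ := by linarith
  have hpos : 0 < 1 - δ ^ 2 := by nlinarith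
  have h1 : DifferentiableOn ℂ (FF a) {z : ℂ | |z.im| < δ} := by
    refine differentiableOn_tsum_of_summable_norm
      (u := fun n : ℕ => 1 / (1 - δ ^ 2) * (1 / ((n : ℝ) + 1) ^ 2)) (summ1.mul_left _)
      (fun n z hz => ?_) (hopen _) (fun n z hz => ?_)
    · have h2 := hden hδ0 hδ1 n hz
      have h3 : z ^ 2 + ((n : ℂ) + 1) ^ 2 ≠ 0 := by
        intro h4
        rw [h4, norm_zero] at h2
        have : 0 < (1 - δ ^ 2) * ((n : ℝ) + 1) ^ 2 := by positivity
        linarith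
      have h4 : DifferentiableAt ℂ (fun z : ℂ => z ^ 2 + ((n : ℂ) + 1) ^ 2) z :=
        (differentiableAt_id.pow 2).add_const _
      exact ((differentiableAt_const _).div h4 h3).differentiableWithinAt
    · have h2 := hden hδ0 hδ1 n hz
      have h5 : 0 < (1 - δ ^ 2) * ((n : ℝ) + 1) ^ 2 := by positivity
      rw [norm_div, Complex.norm_real, Real.norm_eq_abs, div_mul_div_comm, mul_one]
      exact div_le_div₀ zero_le_one (ha n) h5 h2
  exact (h1.differentiableAt ((hopen _).mem_nhds hδ2)).differentiableWithinAt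

/-- There are finitely many zeros in every interval. -/
theorem ZZ_finite {a : ℕ → ℝ} (ha : ∀ n, a (n + 1) = 1 ∨ a (n + 1) = -1) (X : ℝ) : (ZZ a X).Finite := by
  have ha1 : ∀ n, |a (n + 1)| ≤ 1 := by
    intro n
    rcases ha n with h | h <;> rw [h] <;> norm_num
  by_contra hinf
  have hsub : ZZ a X ⊆ Set.Icc (-X) X := fun t ht => abs_le.1 ht.1.le
  obtain ⟨x, _, hx⟩ := Set.Infinite.exists_accPt_of_subset_isCompact hinf isCompact_Icc hsub
  rw [accPt_iff_frequently_nhdsNE] at hx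
  have hfreq : ∃ᶠ z : ℂ in 𝓝[≠] (x : ℂ), FF a z = 0 := by
    have htend : Tendsto (fun y : ℝ => (y : ℂ)) (𝓝[≠] x) (𝓝[≠] (x : ℂ)) := by
      refine tendsto_nhdsWithin_of_tendsto_nhds_of_eventually_within _
        (Complex.continuous_ofReal.continuousAt.mono_left nhdsWithin_le_nhds) ?_
      filter_upwards [self_mem_nhdsWithin] with y hy
      intro h
      have h2 : (y : ℂ) = (x : ℂ) := h
      exact hy (Complex.ofReal_injective h2)
    refine htend.frequently (hx.mono fun y hy => ?_)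
    rw [FF_real, hy.2]
    rfl
  have hopen1 : IsOpen {t : ℂ | |t.im| < 1} :=
    isOpen_lt (continuous_abs.comp Complex.continuous_im) continuous_const
  have hconv : Convex ℝ {t : ℂ | |t.im| < 1} := by
    have h1 : {t : ℂ | |t.im| < 1} = {t : ℂ | -1 < t.im} ∩ {t : ℂ | t.im < 1} := by
      ext t; simp [abs_lt]
    rw [h1]
    exact (convex_halfSpace_im_gt (-1)).inter (convex_halfSpace_im_lt 1)
  have hzero := ((FF_diff_strip ha1).analyticOnNhd hopen1).eqOn_zero_of_preconnected_of_frequently_eq_zero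
    hconv.isPreconnected (show (x : ℂ) ∈ {t : ℂ | |t.im| < 1} by simp) hfreq
  have hopen2 : IsOpen {t : ℂ | 0 < t.re} := isOpen_lt continuous_const Complex.continuous_re
  have hzero2 := ((FF_diff ha1).analyticOnNhd hopen2).eqOn_zero_of_preconnected_of_eventuallyEq_zero
    (convex_halfSpace_re_gt 0).isPreconnected (show (1 : ℂ) ∈ {t : ℂ | 0 < t.re} by simp)
    (by
      filter_upwards [hopen1.mem_nhds (show (1 : ℂ) ∈ {t : ℂ | |t.im| < 1} by simp)] with z hz
      exact hzero hz)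
  refine no_decay ha (M := 0) (c := 1) one_pos fun u hu => ?_
  have h1 : FF a (1 + u) = 0 := hzero2 (show 0 < (1 + u).re by simp; linarith)
  rw [h1, norm_zero, zero_mul]

/-- Many zeros force decay. -/
theorem main {a : ℕ → ℝ} (ha : ∀ n, a (n + 1) = 1 ∨ a (n + 1) = -1) :
    Tendsto (fun X : ℝ => ((ZZ a X).ncard : ℝ) / X) atTop (𝓝 0) := by
  classical
  have ha1 : ∀ n, |a (n + 1)| ≤ 1 := by
    intro n
    rcases ha n with h | h <;> rw [h] <;> norm_num
  -- the positive zeros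
  have hPfin : ∀ X : ℝ, ({t | 0 < t ∧ t < X ∧ ff a t = 0} : Set ℝ).Finite := fun X =>
    (ZZ_finite ha X).subset fun t ht => ⟨by rw [abs_of_pos ht.1]; exact ht.2.1, ht.2.2⟩
  set P : ℝ → Finset ℝ := fun X => (hPfin X).toFinset with hP
  have hPmem : ∀ X t, t ∈ P X ↔ 0 < t ∧ t < X ∧ ff a t = 0 := by
    intro X t
    rw [hP]
    simp
  have hcard : ∀ X, ((ZZ a X).ncard : ℝ) ≤ 2 * (P X).card + 1 := by
    intro X
    have hsub : ZZ a X ⊆ ((P X ∪ (P X).image (fun t => -t) ∪ {0} : Finset ℝ) : Set ℝ) := by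
      intro t ht
      rw [Finset.mem_coe, Finset.mem_union, Finset.mem_union, Finset.mem_singleton, Finset.mem_image]
      have h1 := ht.1
      have h2 := ht.2
      rcases lt_trichotomy t 0 with h | h | h
      · rw [abs_of_neg h] at h1
        left; right
        exact ⟨-t, (hPmem X _).2 ⟨by linarith, h1, by rw [ff_even]; exact h2⟩, neg_neg t⟩
      · right; exact h
      · rw [abs_of_pos h] at h1
        left; left
        exact (hPmem X _).2 ⟨h, h1, h2⟩
    have h1 := Set.ncard_le_ncard hsub (Finset.finite_toSet _)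
    rw [Set.ncard_coe_finset] at h1
    have h2 := Finset.card_union_le (P X ∪ (P X).image (fun t => -t)) {0}
    have h3 := Finset.card_union_le (P X) ((P X).image (fun t => -t))
    have h4 := Finset.card_image_le (s := P X) (f := fun t => -t)
    rw [Finset.card_singleton] at h2
    have h5 : (ZZ a X).ncard ≤ 2 * (P X).card + 1 := by omega
    exact_mod_cast h5
  by_contra hcon
  -- a positive upper density
  obtain ⟨ε, hε, hfreq⟩ : ∃ ε : ℝ, 0 < ε ∧ ∃ᶠ X in atTop, ε ≤ ((ZZ a X).ncard : ℝ) / X := by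
    by_contra hno
    apply hcon
    rw [Metric.tendsto_nhds]
    intro ε hε
    by_contra hne
    apply hno
    refine ⟨ε, hε, ?_⟩
    have h1 : ∃ᶠ X : ℝ in atTop, ¬ dist (((ZZ a X).ncard : ℝ) / X) 0 < ε := not_eventually.1 hne
    refine (h1.and_eventually (eventually_gt_atTop 0)).mono fun X hX => ?_
    have h2 := not_lt.1 hX.1
    rw [Real.dist_eq, sub_zero, abs_of_nonneg (div_nonneg (Nat.cast_nonneg _) hX.2.le)] at h2
    exact h2
  refine no_decay ha (M := nb) (c := ε / 8) (by positivity) fun u hu => ?_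
  set k0 : ℝ := ((P (‖u‖ + 2)).card : ℝ) with hk0
  have hev : ∀ᶠ X : ℝ in atTop, 1 / 2 + k0 ≤ ε / 4 * X ∧ 0 < X := by
    refine ((tendsto_id.const_mul_atTop (by positivity : 0 < ε / 4)).eventually_ge_atTop _).and
      (eventually_gt_atTop 0)
  obtain ⟨X, hX1, hX2, hX0⟩ := (hfreq.and_eventually hev).exists
  rw [le_div_iff₀ hX0] at hX1
  have hc1 := hcard X
  -- the zeros which are used
  set S : Finset ℝ := ((P X).filter (fun t => t ∉ P (‖u‖ + 2))).image (fun t => t - 1) with hS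
  have hScard : (S.card : ℝ) ≥ (P X).card - k0 := by
    rw [hS, Finset.card_image_of_injective _ (sub_left_injective), hk0]
    have h1 := Finset.card_filter_add_card_filter_not (s := P X) (fun t => t ∈ P (‖u‖ + 2))
    have h2 : ((P X).filter (fun t => t ∈ P (‖u‖ + 2))).card ≤ (P (‖u‖ + 2)).card :=
      Finset.card_le_card fun t ht => (Finset.mem_filter.1 ht).2
    have h3 : (P X).card ≤ ((P X).filter (fun t => t ∉ P (‖u‖ + 2))).card + (P (‖u‖ + 2)).card := by omega
    have h4 : ((P X).card : ℝ) ≤ ((P X).filter (fun t => t ∉ P (‖u‖ + 2))).card + (P (‖u‖ + 2)).card := by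
      exact_mod_cast h3
    linarith
  have hSmem : ∀ τ ∈ S, 0 < τ ∧ ‖u‖ ≤ τ ∧ τ ≤ X ∧ FF a (1 + τ) = 0 := by
    intro τ hτ
    rw [hS, Finset.mem_image] at hτ
    obtain ⟨t, ht, rfl⟩ := hτ
    rw [Finset.mem_filter, hPmem, hPmem] at ht
    obtain ⟨⟨h1, h2, h3⟩, h4⟩ := ht
    have h5 : ‖u‖ + 2 ≤ t := by
      by_contra h6
      exact h4 ⟨h1, not_le.1 h6, h3⟩
    have := norm_nonneg u
    refine ⟨by linarith, by linarith, by linarith, ?_⟩
    have e : (1 : ℂ) + ((t - 1 : ℝ) : ℂ) = (t : ℂ) := by push_cast; ring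
    rw [e, FF_real, h3]
    rfl
  have hopen2 : IsOpen {t : ℂ | 0 < t.re} := isOpen_lt continuous_const Complex.continuous_re
  have hcl : closure {z : ℂ | 0 < z.re} = {z : ℂ | 0 ≤ z.re} := Complex.closure_setOfPred_lt_re 0
  have hΦd : DiffContOnCl ℂ (fun u => FF a (1 + u)) {z | 0 < z.re} := by
    apply DifferentiableOn.diffContOnCl
    rw [hcl]
    intro v hv
    have hv0 : 0 ≤ v.re := hv
    have h1 : DifferentiableAt ℂ (FF a) (1 + v) :=
      (FF_diff ha1).differentiableAt (hopen2.mem_nhds (by show 0 < (1 + v).re; simp; linarith))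
    exact (h1.comp v (differentiableAt_id.const_add 1)).differentiableWithinAt
  have hbl := blaschke S hΦd (M := nb) (fun v hv => norm_FF_le ha1 (by simp; linarith))
    (fun τ hτ => (hSmem τ hτ).1) (fun τ hτ => (hSmem τ hτ).2.2.2) u hu
  have hprod : ∏ τ ∈ S, (‖u - τ‖ / ‖u + τ‖) ≤ ∏ _τ ∈ S, Real.exp (-(u.re / (2 * X))) := by
    refine Finset.prod_le_prod (fun τ _ => by positivity) fun τ hτ => ?_
    obtain ⟨h1, h2, h3, _⟩ := hSmem τ hτ
    exact factor_le hu h1 h2 h3
  rw [Finset.prod_const, ← Real.exp_nat_mul] at hprod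
  refine hbl.trans (mul_le_mul_of_nonneg_left (hprod.trans (Real.exp_le_exp.2 ?_)) nb_nonneg)
  have h6 : ε / 4 * X ≤ S.card := by linarith
  have h7 : ε / 8 * u.re ≤ (S.card : ℝ) * (u.re / (2 * X)) := by
    rw [mul_div_assoc', le_div_iff₀ (by positivity)]
    nlinarith
  linarith

end Q195.SZ
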