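import Pool.Agent.Q195.SZ.Fun

set_option autoImplicit false

/-!
# The function does not decay exponentially in the half plane
-/

open Filter Topology Complex Bornology Asymptotics Metric

namespace Q195.SZ

theorem no_decay {a : ℕ → ℝ} (ha : ∀ n, a (n + 1) = 1 ∨ a (n + 1) = -1) {M c : ℝ} (hc : 0 < c)
    (h : ∀ u : ℂ, 0 ≤ u.re → ‖FF a (1 + u)‖ ≤ M * Real.exp (-(c * u.re))) : False := by
  have ha1 : ∀ n, |a (n + 1)| ≤ 1 := by
    intro n
    rcases ha n with h | h <;> rw [h] <;> norm_num
  have hM : 0 ≤ M := by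
    have := (norm_nonneg _).trans (h 0 (by simp))
    simpa using this
  have hopen : IsOpen {t : ℂ | 0 < t.re} := isOpen_lt continuous_const Complex.continuous_re
  have hcl : closure {z : ℂ | 0 < z.re} = {z : ℂ | 0 ≤ z.re} := Complex.closure_setOfPred_lt_re 0
  have hG : DifferentiableOn ℂ (fun t => 2 * t * FF a t) {t | 0 < t.re} :=
    ((differentiable_const _).mul differentiable_id).differentiableOn.mul (FF_diff ha1)
  have hG' : DifferentiableOn ℂ (deriv (fun t => 2 * t * FF a t)) {t | 0 < t.re} := hG.deriv hopen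
  -- the Cauchy estimate
  have hK : ∀ u : ℂ, 0 ≤ u.re → ‖KK (bb a) (2 + u)‖ ≤ 2 * (‖u‖ + 3) * M * Real.exp (-(c * u.re)) := by
    intro u hu
    rw [KK_eq_deriv ha1 (by simp; linarith), norm_neg]
    have hball : ∀ z ∈ closedBall (2 + u) 1, 1 + u.re ≤ z.re := by
      intro z hz
      rw [mem_closedBall, dist_eq_norm] at hz
      have h1 := (Complex.abs_re_le_norm (z - (2 + u))).trans hz
      rw [abs_le] at h1
      simp at h1
      linarith [h1.1]
    have h1 := norm_deriv_le_of_forall_mem_sphere_norm_le (f := fun t => 2 * t * FF a t) (c := 2 + u)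
      (R := 1) (C := 2 * (‖u‖ + 3) * M * Real.exp (-(c * u.re))) one_pos ?_ ?_
    · rwa [div_one] at h1
    · apply DifferentiableOn.diffContOnCl
      rw [closure_ball _ one_ne_zero]
      refine hG.mono fun z hz => ?_
      have := hball z hz
      show 0 < z.re
      linarith
    · intro z hz
      have hz' := hball z (sphere_subset_closedBall hz)
      rw [mem_sphere, dist_eq_norm] at hz
      rw [norm_mul, norm_mul, Complex.norm_ofNat]
      have h2 := h (z - 1) (by simp; linarith)
      rw [add_sub_cancel] at h2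
      have h3 : ‖z‖ ≤ ‖u‖ + 3 := by
        have e : z = (z - (2 + u)) + (2 + u) := by ring
        calc ‖z‖ = ‖(z - (2 + u)) + (2 + u)‖ := by rw [← e]
          _ ≤ ‖z - (2 + u)‖ + ‖2 + u‖ := norm_add_le _ _
          _ ≤ 1 + (‖(2 : ℂ)‖ + ‖u‖) := add_le_add hz.le (norm_add_le _ _)
          _ = ‖u‖ + 3 := by rw [Complex.norm_ofNat]; ring
      have h4 : Real.exp (-(c * (z - 1).re)) ≤ Real.exp (-(c * u.re)) := by
        apply Real.exp_le_exp.2
        simp
        exact mul_le_mul_of_nonneg_left (by linarith) hc.le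
      calc 2 * ‖z‖ * ‖FF a z‖ ≤ 2 * (‖u‖ + 3) * (M * Real.exp (-(c * u.re))) := by
            refine mul_le_mul (by linarith) (h2.trans (mul_le_mul_of_nonneg_left h4 hM))
              (norm_nonneg _) (by positivity)
        _ = _ := by ring
  -- Phragmen Lindelof
  have hdiffK : DifferentiableOn ℂ (fun u => KK (bb a) (2 + u)) {u : ℂ | 0 ≤ u.re} := by
    intro u hu
    have hu0 : 0 ≤ u.re := hu
    have h1 : DifferentiableAt ℂ (deriv (fun t => 2 * t * FF a t)) (2 + u) :=
      hG'.differentiableAt (hopen.mem_nhds (by show 0 < (2 + u).re; simp; linarith))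
    have h2 : DifferentiableAt ℂ (fun u : ℂ => -deriv (fun t => 2 * t * FF a t) (2 + u)) u :=
      (h1.comp u (differentiableAt_id.const_add 2)).neg
    refine h2.differentiableWithinAt.congr (fun v hv => ?_) ?_
    · have hv0 : 0 ≤ v.re := hv
      exact KK_eq_deriv ha1 (by simp; linarith)
    · exact KK_eq_deriv ha1 (by simp; linarith)
  have hEd : DiffContOnCl ℂ (fun u => KK (bb a) (2 + u) * Complex.exp (((c / 2 : ℝ) : ℂ) * u)) {z | 0 < z.re} := by
    apply DifferentiableOn.diffContOnCl
    rw [hcl]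
    exact hdiffK.mul (((differentiable_const _).mul differentiable_id).cexp.differentiableOn)
  have hnb : ∀ u : ℂ, 0 ≤ u.re → ‖KK (bb a) (2 + u)‖ ≤ nb := by
    intro u hu
    have := norm_KK_le (by norm_num : (0 : ℝ) ≤ 1) (abs_bb ha1) (t := 2 + u) (by simp; linarith)
    rwa [one_mul] at this
  have hexpn : ∀ u : ℂ, ‖Complex.exp (((c / 2 : ℝ) : ℂ) * u)‖ = Real.exp (c / 2 * u.re) := by
    intro u
    rw [Complex.norm_exp, Complex.re_ofReal_mul]
  have hgrow : ∃ c' < (2 : ℝ), ∃ B, (fun u : ℂ => KK (bb a) (2 + u) * Complex.exp (((c / 2 : ℝ) : ℂ) * u))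
      =O[cobounded ℂ ⊓ 𝓟 {z | 0 < z.re}] fun z => Real.exp (B * ‖z‖ ^ c') := by
    refine ⟨1, one_lt_two, c / 2, ?_⟩
    refine IsBigO.of_bound nb ?_
    rw [eventually_inf_principal]
    refine Eventually.of_forall fun u hu => ?_
    rw [norm_mul, hexpn, Real.rpow_one, Real.norm_eq_abs, abs_of_pos (Real.exp_pos _)]
    refine mul_le_mul (hnb u (le_of_lt hu)) (Real.exp_le_exp.2 ?_) (Real.exp_pos _).le nb_nonneg
    exact mul_le_mul_of_nonneg_left (Complex.re_le_norm _) (by positivity)
  have hfin : ∀ u : ℂ, 0 ≤ u.re → ‖KK (bb a) (2 + u) * Complex.exp (((c / 2 : ℝ) : ℂ) * u)‖ ≤ nb := by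
    intro u hu
    refine PhragmenLindelof.right_half_plane_of_bounded_on_real
      (f := fun u => KK (bb a) (2 + u) * Complex.exp (((c / 2 : ℝ) : ℂ) * u)) hEd hgrow ?_ ?_ hu
    · have hlim : Tendsto (fun x : ℝ => 2 * (x + 3) * M * Real.exp (-(c / 2 * x))) atTop (𝓝 0) := by
        have h1 : Tendsto (fun x : ℝ => x * Real.exp (-(c / 2 * x))) atTop (𝓝 0) := by
          have h2 := (Real.tendsto_pow_mul_exp_neg_atTop_nhds_zero 1)
          have h3 := (h2.comp (tendsto_id.const_mul_atTop (half_pos hc))).const_mul (c / 2)⁻¹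
          rw [mul_zero] at h3
          refine h3.congr fun x => ?_
          simp only [Function.comp, id, pow_one]
          field_simp
        have h4 : Tendsto (fun x : ℝ => Real.exp (-(c / 2 * x))) atTop (𝓝 0) :=
          Real.tendsto_exp_neg_atTop_nhds_zero.comp (tendsto_id.const_mul_atTop (half_pos hc))
        have h5 := (h1.const_mul (2 * M)).add (h4.const_mul (6 * M))
        rw [mul_zero, mul_zero, add_zero] at h5
        refine h5.congr fun x => ?_
        ring
      have hb := hlim.isBoundedUnder_le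
      refine hb.mono_le ?_
      filter_upwards [eventually_ge_atTop (0 : ℝ)] with x hx
      rw [norm_mul, hexpn]
      have h1 := hK x (by simpa using hx)
      rw [Complex.norm_real, Real.norm_eq_abs, abs_of_nonneg hx, Complex.ofReal_re] at h1
      rw [Complex.ofReal_re]
      calc ‖KK (bb a) (2 + x)‖ * Real.exp (c / 2 * x) ≤
            (2 * (x + 3) * M * Real.exp (-(c * x))) * Real.exp (c / 2 * x) :=
            mul_le_mul_of_nonneg_right h1 (Real.exp_pos _).le
        _ = 2 * (x + 3) * M * Real.exp (-(c / 2 * x)) := by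
            rw [mul_assoc, ← Real.exp_add]
            congr 2
            ring
    · intro x
      rw [norm_mul, hexpn]
      have h1 := hnb (x * I) (by simp)
      have h2 : ((x : ℂ) * I).re = 0 := by simp
      rw [h2, mul_zero, Real.exp_zero, mul_one]
      exact h1
  refine no_gap (b := bb a) (fun n hn => ?_) (by simp [bb]) (C := nb) (κ := c / 2) (half_pos hc) ?_
  · unfold bb
    rw [if_neg hn]
    have h1 := ha (n.natAbs - 1)
    rw [Nat.sub_add_cancel (by omega)] at h1
    exact h1.symm
  · intro u hu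
    have h1 := hfin u hu
    rw [norm_mul, hexpn] at h1
    have h2 : ‖KK (bb a) (2 + u)‖ = ‖KK (bb a) (2 + u)‖ * Real.exp (c / 2 * u.re) * Real.exp (-(c / 2 * u.re)) := by
      rw [mul_assoc, ← Real.exp_add, add_neg_cancel, Real.exp_zero, mul_one]
    rw [h2]
    exact mul_le_mul_of_nonneg_right h1 (Real.exp_pos _).le

end Q195.SZ
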