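import Pool.Agent.Q195.SZ.Sum

set_option autoImplicit false

/-!
# One sided sequences with an exponentially decaying kernel sum vanish
-/

open Filter Topology Complex Bornology Asymptotics

namespace Q195.SZ

theorem term_upper {d : ℤ → ℝ} {B δ : ℝ} (hB : 0 ≤ B) (hd : ∀ n, |d n| ≤ B) (hneg : ∀ n < 0, d n = 0)
    (hδ : 0 < δ) (hδ1 : δ ≤ 1) {t : ℂ} (ht : δ ≤ t.im) (n : ℤ) :
    ‖(d n : ℂ) / (t + n * I) ^ 2‖ ≤ B / δ ^ 2 * (1 / (1 + (n : ℝ) ^ 2)) := by
  rcases lt_or_ge n 0 with h | h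
  · rw [hneg n h]
    simp
    positivity
  · refine (norm_K_term hd t n).trans ?_
    have hn : (0 : ℝ) ≤ n := by exact_mod_cast h
    have h1 : δ ^ 2 * (1 + (n : ℝ) ^ 2) ≤ ‖t + n * I‖ ^ 2 := by
      rw [normSq_eq]
      have : (δ + n) ^ 2 ≤ (t.im + n) ^ 2 := by
        apply pow_le_pow_left₀ (by linarith) (by linarith)
      nlinarith [mul_nonneg hδ.le hn, sq_nonneg t.re, mul_nonneg (sq_nonneg (n : ℝ)) (sub_nonneg.2 hδ1)]
    have h2 : 1 / ‖t + n * I‖ ^ 2 ≤ 1 / (δ ^ 2 * (1 + (n : ℝ) ^ 2)) :=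
      one_div_le_one_div_of_le (by positivity) h1
    calc B * (1 / ‖t + n * I‖ ^ 2) ≤ B * (1 / (δ ^ 2 * (1 + (n : ℝ) ^ 2))) :=
          mul_le_mul_of_nonneg_left h2 hB
      _ = _ := by field_simp

theorem KK_upper_le {d : ℤ → ℝ} {B δ : ℝ} (hB : 0 ≤ B) (hd : ∀ n, |d n| ≤ B) (hneg : ∀ n < 0, d n = 0)
    (hδ : 0 < δ) (hδ1 : δ ≤ 1) {t : ℂ} (ht : δ ≤ t.im) :
    ‖KK d t‖ ≤ ∑' n : ℤ, B / δ ^ 2 * (1 / (1 + (n : ℝ) ^ 2)) := by
  have hs : Summable (fun n : ℤ => B / δ ^ 2 * (1 / (1 + (n : ℝ) ^ 2))) := summ0.mul_left _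
  have h1 := Summable.of_nonneg_of_le (fun n => norm_nonneg _) (term_upper hB hd hneg hδ hδ1 ht) hs
  exact (norm_tsum_le_tsum_norm h1).trans
    (Summable.tsum_le_tsum (term_upper hB hd hneg hδ hδ1 ht) h1 hs)

theorem KK_diff_upper {d : ℤ → ℝ} {B δ : ℝ} (hB : 0 ≤ B) (hd : ∀ n, |d n| ≤ B)
    (hneg : ∀ n < 0, d n = 0) (hδ : 0 < δ) (hδ1 : δ ≤ 1) :
    DifferentiableOn ℂ (KK d) {t | δ < t.im} := by
  refine differentiableOn_tsum_of_summable_norm (u := fun n : ℤ => B / δ ^ 2 * (1 / (1 + (n : ℝ) ^ 2)))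
    (summ0.mul_left _) (fun n => ?_) (isOpen_lt continuous_const Complex.continuous_im)
    (fun n t ht => term_upper hB hd hneg hδ hδ1 (le_of_lt ht) n)
  rcases lt_or_ge n 0 with h | h
  · rw [hneg n h]
    simp only [Complex.ofReal_zero, zero_div]
    exact differentiableOn_const _
  · intro t ht
    have hne : (t + n * I) ^ 2 ≠ 0 := by
      apply pow_ne_zero
      intro h1
      have h2 := congrArg Complex.im h1
      have hn : (0 : ℝ) ≤ n := by exact_mod_cast h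
      have ht' : δ < t.im := ht
      simp at h2
      linarith
    apply DifferentiableAt.differentiableWithinAt
    exact (differentiableAt_const _).div (((differentiableAt_id).add_const _).pow 2) hne

/-- The exponent of the multiplier. -/
noncomputable def psi (κ : ℝ) (ζ : ℂ) : ℂ := κ * (I * ζ / 2 - (ζ + 1) * Complex.log (ζ + 1) / Real.pi)

theorem psi_diff (κ : ℝ) : DifferentiableOn ℂ (psi κ) {z | -1 < z.re} := by
  intro z hz
  have hs : z + 1 ∈ Complex.slitPlane := by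
    left
    have : -1 < z.re := hz
    simp
    linarith
  apply DifferentiableAt.differentiableWithinAt
  unfold psi
  have h1 : DifferentiableAt ℂ (fun z : ℂ => Complex.log (z + 1)) z :=
    (differentiableAt_id.add_const _).clog hs
  fun_prop

theorem psi_re_real {κ : ℝ} {x : ℝ} (hx : 0 ≤ x) :
    (psi κ x).re = -(κ * ((x + 1) * Real.log (x + 1) / Real.pi)) := by
  unfold psi
  have h1 : Complex.log ((x : ℂ) + 1) = ((Real.log (x + 1) : ℝ) : ℂ) := by
    rw [← Complex.ofReal_one, ← Complex.ofReal_add, Complex.ofReal_log (by linarith)]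
  rw [h1, Complex.re_ofReal_mul, Complex.sub_re]
  have h2 : (((x : ℂ) + 1) * ((Real.log (x + 1) : ℝ) : ℂ) / (Real.pi : ℂ)) =
      (((x + 1) * Real.log (x + 1) / Real.pi : ℝ) : ℂ) := by push_cast; ring
  have h3 : (I * (x : ℂ) / 2).re = 0 := by simp
  rw [h2, h3, Complex.ofReal_re]
  ring

theorem psi_re_imag {κ : ℝ} (hκ : 0 < κ) (y : ℝ) : (psi κ (y * I)).re ≤ κ * (-(y / 2) + |y| / 2) := by
  unfold psi
  rw [Complex.re_ofReal_mul]
  refine mul_le_mul_of_nonneg_left ?_ hκ.le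
  rw [Complex.sub_re]
  have h1 : (I * ((y : ℂ) * I) / 2).re = -(y / 2) := by
    have : I * ((y : ℂ) * I) / 2 = ((-(y / 2) : ℝ) : ℂ) := by
      push_cast
      linear_combination (y / 2 : ℂ) * Complex.I_sq
    rw [this, Complex.ofReal_re]
  rw [h1]
  set w : ℂ := (y : ℂ) * I + 1 with hw
  have hwre : w.re = 1 := by rw [hw]; simp
  have hwim : w.im = y := by rw [hw]; simp
  have hnorm : 1 ≤ ‖w‖ := by
    have := Complex.re_le_norm w
    linarith
  have hlog : 0 ≤ Real.log ‖w‖ := Real.log_nonneg hnorm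
  have harg : |Complex.arg w| ≤ Real.pi / 2 := Complex.abs_arg_le_pi_div_two_iff.2 (by rw [hwre]; norm_num)
  have h2 : (w * Complex.log w / (Real.pi : ℂ)).re = (Real.log ‖w‖ - y * Complex.arg w) / Real.pi := by
    have e : w * Complex.log w / (Real.pi : ℂ) = ((Real.pi⁻¹ : ℝ) : ℂ) * (w * Complex.log w) := by
      push_cast; ring
    rw [e, Complex.re_ofReal_mul, Complex.mul_re, hwre, hwim, Complex.log_re, Complex.log_im]
    ring
  rw [h2]
  have h3 : y * Complex.arg w ≤ |y| * (Real.pi / 2) := by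
    refine (le_abs_self _).trans ?_
    rw [abs_mul]
    exact mul_le_mul_of_nonneg_left harg (abs_nonneg _)
  have h4 : y * Complex.arg w / Real.pi ≤ |y| / 2 := by
    rw [div_le_iff₀ Real.pi_pos]
    linarith
  have h5 : 0 ≤ Real.log ‖w‖ / Real.pi := div_nonneg hlog Real.pi_pos.le
  rw [sub_div]
  linarith

theorem psi_norm {κ : ℝ} (hκ : 0 < κ) {ζ : ℂ} (hζ : 0 < ζ.re) (h1 : 1 ≤ ‖ζ‖) :
    ‖psi κ ζ‖ ≤ 5 * κ * ‖ζ‖ ^ (3 / 2 : ℝ) := by
  unfold psi
  rw [norm_mul, Complex.norm_real, Real.norm_eq_abs, abs_of_pos hκ]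
  set r := ‖ζ‖ with hr
  have hw1 : 1 ≤ ‖ζ + 1‖ := by
    have := Complex.re_le_norm (ζ + 1)
    simp at this
    linarith
  have hw2 : ‖ζ + 1‖ ≤ 2 * r := by
    refine (norm_add_le _ _).trans ?_
    rw [norm_one]
    linarith
  have hr0 : 0 ≤ r := by linarith
  have hq : r ^ (3 / 2 : ℝ) = r * Real.sqrt r := by
    rw [Real.sqrt_eq_rpow, show (3 / 2 : ℝ) = 1 + 1 / 2 by norm_num,
      Real.rpow_add (by linarith : 0 < r), Real.rpow_one]
  have hs1 : 1 ≤ Real.sqrt r := Real.one_le_sqrt.2 h1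
  have hlogle : Real.log ‖ζ + 1‖ ≤ 3 * Real.sqrt r := by
    have h2 : Real.log ‖ζ + 1‖ ≤ ‖ζ + 1‖ ^ (1 / 2 : ℝ) / (1 / 2 : ℝ) :=
      Real.log_le_rpow_div (by linarith) (by norm_num)
    rw [← Real.sqrt_eq_rpow] at h2
    have h3 : Real.sqrt ‖ζ + 1‖ ≤ Real.sqrt 2 * Real.sqrt r := by
      rw [← Real.sqrt_mul (by norm_num)]
      exact Real.sqrt_le_sqrt hw2
    have h4 : Real.sqrt 2 ≤ 1.5 := by
      rw [Real.sqrt_le_left (by norm_num)]
      norm_num
    have h5 : Real.sqrt 2 * Real.sqrt r ≤ 1.5 * Real.sqrt r :=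
      mul_le_mul_of_nonneg_right h4 (Real.sqrt_nonneg _)
    linarith
  have hlog : ‖Complex.log (ζ + 1)‖ ≤ 3 * Real.sqrt r + Real.pi / 2 := by
    refine (Complex.norm_le_abs_re_add_abs_im _).trans ?_
    rw [Complex.log_re, Complex.log_im, abs_of_nonneg (Real.log_nonneg hw1)]
    refine add_le_add hlogle ?_
    exact Complex.abs_arg_le_pi_div_two_iff.2 (by simp; linarith)
  have hpi : 3 < Real.pi := Real.pi_gt_three
  have h6 : ‖(ζ + 1) * Complex.log (ζ + 1) / (Real.pi : ℂ)‖ ≤ 2 * r * (3 * Real.sqrt r + Real.pi / 2) / Real.pi := by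
    rw [norm_div, norm_mul, Complex.norm_real, Real.norm_eq_abs, abs_of_pos Real.pi_pos]
    refine div_le_div_of_nonneg_right (mul_le_mul hw2 hlog (norm_nonneg _) (by linarith)) Real.pi_pos.le
  have h7 : ‖I * ζ / 2‖ = r / 2 := by
    rw [norm_div, norm_mul, Complex.norm_I]
    simp [hr]
  have h8 : 2 * r * (3 * Real.sqrt r + Real.pi / 2) / Real.pi ≤ 2 * (r * Real.sqrt r) + r := by
    rw [div_le_iff₀ Real.pi_pos]
    have : 0 ≤ r * Real.sqrt r := mul_nonneg hr0 (Real.sqrt_nonneg _)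
    nlinarith
  have h9 : r ≤ r * Real.sqrt r := by nlinarith
  have h10 : ‖I * ζ / 2 - (ζ + 1) * Complex.log (ζ + 1) / (Real.pi : ℂ)‖ ≤ 5 * (r * Real.sqrt r) := by
    refine (norm_sub_le _ _).trans ?_
    rw [h7]
    have : 0 ≤ r * Real.sqrt r := mul_nonneg hr0 (Real.sqrt_nonneg _)
    linarith
  rw [hq]
  calc κ * ‖I * ζ / 2 - (ζ + 1) * Complex.log (ζ + 1) / (Real.pi : ℂ)‖ ≤ κ * (5 * (r * Real.sqrt r)) :=
        mul_le_mul_of_nonneg_left h10 hκ.le
    _ = _ := by ring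

end Q195.SZ
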