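import Pool.Agent.Q195.SZ.Det

set_option autoImplicit false

/-!
# One sided sequences with an exponentially decaying kernel sum vanish, second part
-/

open Filter Topology Complex Bornology Asymptotics

namespace Q195.SZ

theorem KK_zero_upper {d : ℤ → ℝ} {B C κ : ℝ} (hκ : 0 < κ) (hB : 0 ≤ B) (hd : ∀ n, |d n| ≤ B)
    (hneg : ∀ n < 0, d n = 0)
    (hK : ∀ u : ℂ, 0 ≤ u.re → ‖KK d (2 + u)‖ ≤ C * Real.exp (-(κ * u.re)))
    {δ : ℝ} (hδ : 0 < δ) (hδ1 : δ ≤ 1) {t : ℂ} (ht : δ ≤ t.im) : KK d t = 0 := by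
  set C1 : ℝ := ∑' n : ℤ, B / δ ^ 2 * (1 / (1 + (n : ℝ) ^ 2)) with hC1
  have hC1' : ∀ t : ℂ, δ ≤ t.im → ‖KK d t‖ ≤ C1 := fun t ht => KK_upper_le hB hd hneg hδ hδ1 ht
  have hC1n : 0 ≤ C1 := (norm_nonneg _).trans (hC1' t ht)
  have hCn : 0 ≤ C := by
    have := (norm_nonneg _).trans (hK 0 (by simp))
    simpa using this
  set H : ℂ → ℂ := fun ζ => KK d (2 + δ * I + I * ζ) with hH
  have him : ∀ ζ : ℂ, (2 + δ * I + I * ζ).im = δ + ζ.re := by intro ζ; simp
  have hre : ∀ ζ : ℂ, (2 + δ * I + I * ζ).re = 2 - ζ.im := by intro ζ; simp; ring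
  have hcl : closure {z : ℂ | 0 < z.re} = {z : ℂ | 0 ≤ z.re} := Complex.closure_setOfPred_lt_re 0
  have hHd : DifferentiableOn ℂ H {z : ℂ | 0 ≤ z.re} := by
    intro ζ hζ
    have h1 : DifferentiableAt ℂ (KK d) (2 + δ * I + I * ζ) := by
      refine (KK_diff_upper hB hd hneg (half_pos hδ) (by linarith)).differentiableAt ?_
      refine (isOpen_lt continuous_const Complex.continuous_im).mem_nhds ?_
      show δ / 2 < (2 + δ * I + I * ζ).im
      rw [him]
      have : 0 ≤ ζ.re := hζ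
      linarith
    have h2 : DifferentiableAt ℂ (fun ζ : ℂ => 2 + δ * I + I * ζ) ζ := by fun_prop
    exact (DifferentiableAt.comp ζ h1 h2).differentiableWithinAt
  have hEd : DiffContOnCl ℂ (fun ζ => H ζ * Complex.exp (psi κ ζ)) {z | 0 < z.re} := by
    apply DifferentiableOn.diffContOnCl
    rw [hcl]
    refine hHd.mul ?_
    intro ζ hζ
    have h0 : 0 ≤ ζ.re := hζ
    have h1 : DifferentiableAt ℂ (psi κ) ζ :=
      (psi_diff κ).differentiableAt ((isOpen_lt continuous_const Complex.continuous_re).mem_nhds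
        (show -1 < ζ.re by linarith))
    exact h1.cexp.differentiableWithinAt
  have hHb : ∀ ζ : ℂ, 0 ≤ ζ.re → ‖H ζ‖ ≤ C1 := by
    intro ζ hζ
    refine hC1' _ ?_
    rw [him]
    linarith
  have hgrow : ∃ c < (2 : ℝ), ∃ B, (fun ζ : ℂ => H ζ * Complex.exp (psi κ ζ))
      =O[cobounded ℂ ⊓ 𝓟 {z | 0 < z.re}] fun z => Real.exp (B * ‖z‖ ^ c) := by
    refine ⟨3 / 2, by norm_num, 5 * κ, ?_⟩
    refine IsBigO.of_bound C1 ?_
    rw [eventually_inf_principal]
    have h8 : ∀ᶠ u : ℂ in cobounded ℂ, 1 ≤ ‖u‖ := tendsto_norm_cobounded_atTop.eventually_ge_atTop _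
    filter_upwards [h8] with u hu h9
    rw [norm_mul, Real.norm_eq_abs, abs_of_pos (Real.exp_pos _), Complex.norm_exp]
    refine mul_le_mul (hHb u (le_of_lt h9)) ?_ (Real.exp_pos _).le hC1n
    exact Real.exp_le_exp.2 ((Complex.re_le_norm _).trans (psi_norm hκ h9 hu))
  have hreal : SuperpolynomialDecay atTop Real.exp fun x : ℝ => ‖H x * Complex.exp (psi κ x)‖ := by
    intro n
    have hlog : ∀ᶠ x : ℝ in atTop, ((n : ℝ) + 1) * Real.pi / κ ≤ Real.log (x + 1) :=
      (Real.tendsto_log_atTop.comp (tendsto_atTop_add_const_right _ _ tendsto_id)).eventually_ge_atTop _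
    have hlim : Tendsto (fun x : ℝ => C1 * Real.exp (-x)) atTop (𝓝 0) := by
      have := (Real.tendsto_exp_atBot.comp tendsto_neg_atTop_atBot).const_mul C1
      simpa using this
    refine squeeze_zero' (Eventually.of_forall fun x => by positivity) ?_ hlim
    filter_upwards [hlog, eventually_ge_atTop 0] with x hx hx0
    rw [norm_mul, Complex.norm_exp, psi_re_real hx0]
    have h1 : ‖H x‖ ≤ C1 := hHb x (by simpa using hx0)
    have h2 : ((n : ℝ) + 1) * (x + 1) ≤ κ * ((x + 1) * Real.log (x + 1) / Real.pi) := by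
      rw [div_le_iff₀ hκ] at hx
      have h3 : ((n : ℝ) + 1) * (x + 1) * Real.pi ≤ κ * ((x + 1) * Real.log (x + 1)) := by nlinarith
      calc ((n : ℝ) + 1) * (x + 1) = ((n : ℝ) + 1) * (x + 1) * Real.pi / Real.pi := by
            field_simp
        _ ≤ κ * ((x + 1) * Real.log (x + 1)) / Real.pi := div_le_div_of_nonneg_right h3 Real.pi_pos.le
        _ = _ := by ring
    calc Real.exp x ^ n * (‖H x‖ * Real.exp (-(κ * ((x + 1) * Real.log (x + 1) / Real.pi))))
        ≤ Real.exp x ^ n * (C1 * Real.exp (-(((n : ℝ) + 1) * (x + 1)))) := by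
          refine mul_le_mul_of_nonneg_left (mul_le_mul h1 (Real.exp_le_exp.2 (neg_le_neg h2))
            (Real.exp_pos _).le hC1n) (by positivity)
      _ = C1 * Real.exp (n * x - ((n : ℝ) + 1) * (x + 1)) := by
          rw [← Real.exp_nat_mul, sub_eq_add_neg, Real.exp_add]
          ring
      _ ≤ C1 * Real.exp (-x) := by
          refine mul_le_mul_of_nonneg_left (Real.exp_le_exp.2 ?_) hC1n
          have : (0 : ℝ) ≤ n := Nat.cast_nonneg n
          nlinarith
  have himag : ∃ D, ∀ x : ℝ, ‖H (x * I) * Complex.exp (psi κ (x * I))‖ ≤ D := by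
    refine ⟨max C1 C, fun y => ?_⟩
    rw [norm_mul, Complex.norm_exp]
    have h1 := psi_re_imag hκ y
    rcases le_or_gt 0 y with hy | hy
    · rw [abs_of_nonneg hy] at h1
      have h2 : Real.exp (psi κ (y * I)).re ≤ 1 := Real.exp_le_one_iff.2 (h1.trans (by ring_nf; simp))
      have h3 : ‖H (y * I)‖ ≤ C1 := hHb _ (by simp)
      calc ‖H (y * I)‖ * Real.exp (psi κ (y * I)).re ≤ C1 * 1 :=
            mul_le_mul h3 h2 (Real.exp_pos _).le hC1n
        _ ≤ _ := by rw [mul_one]; exact le_max_left _ _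
    · rw [abs_of_neg hy] at h1
      have h2 : (psi κ (y * I)).re ≤ -(κ * y) := h1.trans (le_of_eq (by ring))
      have h3 : ‖H (y * I)‖ ≤ C * Real.exp (κ * y) := by
        have h4 := hK (-y + δ * I) (by simp; exact hy.le)
        have e : (2 : ℂ) + (-y + δ * I) = 2 + δ * I + I * (y * I) := by
          linear_combination (-(y : ℂ)) * Complex.I_sq
        rw [e] at h4
        refine h4.trans (le_of_eq ?_)
        congr 2
        simp
      calc ‖H (y * I)‖ * Real.exp (psi κ (y * I)).re ≤ (C * Real.exp (κ * y)) * Real.exp (-(κ * y)) :=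
            mul_le_mul h3 (Real.exp_le_exp.2 h2) (Real.exp_pos _).le (by positivity)
        _ = C := by rw [mul_assoc, ← Real.exp_add]; simp
        _ ≤ _ := le_max_right _ _
  have hfin := PhragmenLindelof.eq_zero_on_right_half_plane_of_superexponential_decay hEd hgrow hreal himag
  have hζ : (0 : ℝ) ≤ (-I * (t - 2 - δ * I)).re := by simp; exact ht
  have h1 := hfin hζ
  have h2 : H (-I * (t - 2 - δ * I)) = 0 := by
    have h3 : H (-I * (t - 2 - δ * I)) * Complex.exp (psi κ (-I * (t - 2 - δ * I))) = 0 := h1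
    exact (mul_eq_zero.1 h3).resolve_right (Complex.exp_ne_zero _)
  have e : 2 + δ * I + I * (-I * (t - 2 - δ * I)) = t := by
    linear_combination (-(t - 2 - δ * I)) * Complex.I_sq
  have h4 : KK d (2 + δ * I + I * (-I * (t - 2 - δ * I))) = 0 := h2
  rwa [e] at h4

/-- Determinism. -/
theorem det_zero {d : ℤ → ℝ} {B C κ : ℝ} (hκ : 0 < κ) (hB : 0 ≤ B) (hd : ∀ n, |d n| ≤ B)
    (hneg : ∀ n < 0, d n = 0)
    (hK : ∀ u : ℂ, 0 ≤ u.re → ‖KK d (2 + u)‖ ≤ C * Real.exp (-(κ * u.re))) : d 0 = 0 := by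
  set S : ℝ := ∑' n : ℤ, 2 * B * (1 / (1 + (n : ℝ) ^ 2)) with hS
  have hsum : Summable (fun n : ℤ => 2 * B * (1 / (1 + (n : ℝ) ^ 2))) := summ0.mul_left _
  have hS0 : 0 ≤ S := tsum_nonneg fun n => by positivity
  have key : ∀ ε : ℝ, 0 < ε → ε ≤ 1 → |d 0| ≤ S * ε ^ 2 := by
    intro ε hε hε1
    have h0 := KK_zero_upper hκ hB hd hneg hK hε hε1 (t := ε * I) (by simp)
    have hs : Summable (fun n : ℤ => (d n : ℂ) / (ε * I + n * I) ^ 2) :=
      Summable.of_norm_bounded (summ0.mul_left _)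
        (term_upper hB hd hneg hε hε1 (t := ε * I) (by simp))
    unfold KK at h0
    rw [hs.tsum_eq_add_tsum_ite 0] at h0
    have h1 : ‖∑' n : ℤ, (if n = 0 then (0 : ℂ) else (d n : ℂ) / (ε * I + n * I) ^ 2)‖ ≤ S := by
      have hb : ∀ n : ℤ, ‖(if n = 0 then (0 : ℂ) else (d n : ℂ) / (ε * I + n * I) ^ 2)‖ ≤
          2 * B * (1 / (1 + (n : ℝ) ^ 2)) := by
        intro n
        split_ifs with hn
        · rw [norm_zero]; positivity
        · rcases lt_or_ge n 0 with h | h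
          · rw [hneg n h]; simp; positivity
          · refine (norm_K_term hd (ε * I) n).trans ?_
            have hn1 : (1 : ℝ) ≤ n := by exact_mod_cast (by omega : (1 : ℤ) ≤ n)
            rw [normSq_eq]
            have h3 : (1 + (n : ℝ) ^ 2) / 2 ≤ ((ε : ℂ) * I).re ^ 2 + (((ε : ℂ) * I).im + n) ^ 2 := by
              simp
              nlinarith
            have h4 : 1 / (((ε : ℂ) * I).re ^ 2 + (((ε : ℂ) * I).im + n) ^ 2) ≤
                1 / ((1 + (n : ℝ) ^ 2) / 2) := one_div_le_one_div_of_le (by positivity) h3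
            calc B * (1 / (((ε : ℂ) * I).re ^ 2 + (((ε : ℂ) * I).im + n) ^ 2)) ≤
                  B * (1 / ((1 + (n : ℝ) ^ 2) / 2)) := mul_le_mul_of_nonneg_left h4 hB
              _ = _ := by field_simp
      have hs2 := Summable.of_nonneg_of_le (fun n => norm_nonneg _) hb hsum
      exact (norm_tsum_le_tsum_norm hs2).trans (Summable.tsum_le_tsum hb hs2 hsum)
    have h2 : ‖(d 0 : ℂ) / (ε * I + ((0 : ℤ) : ℂ) * I) ^ 2‖ ≤ S := by
      rw [eq_neg_of_add_eq_zero_left h0, norm_neg]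
      exact h1
    rw [norm_div, norm_pow, Complex.norm_real, Real.norm_eq_abs] at h2
    have h3 : ‖(ε : ℂ) * I + ((0 : ℤ) : ℂ) * I‖ = ε := by
      simp [abs_of_pos hε]
    rw [h3, div_le_iff₀ (by positivity)] at h2
    exact h2
  by_contra hne
  have hpos : 0 < |d 0| := abs_pos.2 hne
  set ε := min 1 (|d 0| / (2 * (S + 1))) with hε
  have hε0 : 0 < ε := lt_min one_pos (by positivity)
  have hε1 : ε ≤ 1 := min_le_left _ _
  have hε2 : ε ≤ |d 0| / (2 * (S + 1)) := min_le_right _ _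
  have h1 := key ε hε0 hε1
  rw [le_div_iff₀ (by positivity)] at hε2
  nlinarith

end Q195.SZ
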