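import Pool.Agent.Q195.SZ.Comp
import Pool.Agent.Q195.SZ.Blaschke

set_option autoImplicit false

/-!
# The function `∑ a_n / (t ^ 2 + n ^ 2)`
-/

open Filter Topology Complex Bornology Asymptotics

namespace Q195.SZ

/-- The complex function. -/
noncomputable def FF (a : ℕ → ℝ) (t : ℂ) : ℂ := ∑' n : ℕ, (a (n + 1) : ℂ) / (t ^ 2 + ((n : ℂ) + 1) ^ 2)

theorem summ1 : Summable (fun n : ℕ => 1 / ((n : ℝ) + 1) ^ 2) := by
  have h := (summable_nat_add_iff 1).2 (Real.summable_one_div_nat_pow.2 one_lt_two)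
  simpa using h

theorem factor_eq (t : ℂ) (m : ℂ) : t ^ 2 + m ^ 2 = (t + m * I) * (t - m * I) := by
  linear_combination (m ^ 2) * Complex.I_sq

theorem norm_add_mul_ge (t : ℂ) (m : ℝ) : |m| * t.re ≤ ‖t + m * I‖ * ‖t‖ := by
  have h1 : (|m| * t.re) ^ 2 ≤ (‖t + m * I‖ * ‖t‖) ^ 2 := by
    rw [mul_pow, mul_pow, sq_abs, Complex.sq_norm, Complex.sq_norm, Complex.normSq_apply,
      Complex.normSq_apply]
    simp
    nlinarith [sq_nonneg (t.re ^ 2 + t.im * (t.im + m))]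
  exact le_of_sq_le_sq h1 (by positivity)

theorem norm_den_ge {t : ℂ} (ht : 0 < t.re) (m : ℝ) :
    m ^ 2 * t.re ^ 2 ≤ ‖t ^ 2 + (m : ℂ) ^ 2‖ * ‖t‖ ^ 2 := by
  rw [factor_eq, norm_mul]
  have h1 := norm_add_mul_ge t m
  have h2 := norm_add_mul_ge t (-m)
  rw [abs_neg] at h2
  have e : t + ((-m : ℝ) : ℂ) * I = t - m * I := by push_cast; ring
  rw [e] at h2
  have h3 : (|m| * t.re) * (|m| * t.re) ≤ (‖t + m * I‖ * ‖t‖) * (‖t - m * I‖ * ‖t‖) :=
    mul_le_mul h1 h2 (by positivity) (by positivity)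
  have h4 : (|m| * t.re) * (|m| * t.re) = m ^ 2 * t.re ^ 2 := by
    rw [← sq_abs m]; ring
  nlinarith

theorem den_ne {t : ℂ} (ht : 0 < t.re) (n : ℕ) : t ^ 2 + ((n : ℂ) + 1) ^ 2 ≠ 0 := by
  intro h
  have h1 := norm_den_ge ht ((n : ℝ) + 1)
  have e : t ^ 2 + (((n : ℝ) + 1 : ℝ) : ℂ) ^ 2 = t ^ 2 + ((n : ℂ) + 1) ^ 2 := by push_cast; ring
  rw [e, h, norm_zero, zero_mul] at h1
  have : 0 < ((n : ℝ) + 1) ^ 2 * t.re ^ 2 := by positivity
  linarith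

theorem term_le_box {a : ℕ → ℝ} (ha : ∀ n, |a (n + 1)| ≤ 1) {δ R : ℝ} (hδ : 0 < δ) {t : ℂ}
    (ht : δ < t.re) (hR : ‖t‖ < R) (n : ℕ) :
    ‖(a (n + 1) : ℂ) / (t ^ 2 + ((n : ℂ) + 1) ^ 2)‖ ≤ R ^ 2 / δ ^ 2 * (1 / ((n : ℝ) + 1) ^ 2) := by
  have ht0 : 0 < t.re := hδ.trans ht
  have h1 := norm_den_ge ht0 ((n : ℝ) + 1)
  have e : t ^ 2 + (((n : ℝ) + 1 : ℝ) : ℂ) ^ 2 = t ^ 2 + ((n : ℂ) + 1) ^ 2 := by push_cast; ring
  rw [e] at h1
  have hpos : 0 < ‖t ^ 2 + ((n : ℂ) + 1) ^ 2‖ := norm_pos_iff.2 (den_ne ht0 n)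
  have hR0 : 0 < R := (norm_nonneg _).trans_lt hR
  rw [norm_div, Complex.norm_real, Real.norm_eq_abs]
  rw [div_mul_div_comm, mul_one, div_le_div_iff₀ hpos (by positivity)]
  have h2 : δ ^ 2 ≤ t.re ^ 2 := pow_le_pow_left₀ hδ.le ht.le 2
  have h3 : ‖t‖ ^ 2 ≤ R ^ 2 := pow_le_pow_left₀ (norm_nonneg _) hR.le 2
  have hn : 0 < ((n : ℝ) + 1) ^ 2 := by positivity
  calc |a (n + 1)| * (δ ^ 2 * ((n : ℝ) + 1) ^ 2) ≤ 1 * (δ ^ 2 * ((n : ℝ) + 1) ^ 2) :=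
        mul_le_mul_of_nonneg_right (ha n) (by positivity)
    _ ≤ ((n : ℝ) + 1) ^ 2 * t.re ^ 2 := by nlinarith
    _ ≤ ‖t ^ 2 + ((n : ℂ) + 1) ^ 2‖ * ‖t‖ ^ 2 := h1
    _ ≤ ‖t ^ 2 + ((n : ℂ) + 1) ^ 2‖ * R ^ 2 := mul_le_mul_of_nonneg_left h3 hpos.le
    _ = _ := by ring

theorem box_open (δ R : ℝ) : IsOpen {t : ℂ | δ < t.re ∧ ‖t‖ < R} :=
  (isOpen_lt continuous_const Complex.continuous_re).inter (isOpen_lt continuous_norm continuous_const)

theorem term_diff (a : ℕ → ℝ) (n : ℕ) {t : ℂ} (ht : 0 < t.re) :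
    DifferentiableAt ℂ (fun t : ℂ => (a (n + 1) : ℂ) / (t ^ 2 + ((n : ℂ) + 1) ^ 2)) t := by
  exact (differentiableAt_const _).div ((differentiableAt_id.pow 2).add_const _) (den_ne ht n)

theorem FF_diff {a : ℕ → ℝ} (ha : ∀ n, |a (n + 1)| ≤ 1) : DifferentiableOn ℂ (FF a) {t | 0 < t.re} := by
  intro t ht
  have ht0 : 0 < t.re := ht
  have hbox : t ∈ {z : ℂ | t.re / 2 < z.re ∧ ‖z‖ < ‖t‖ + 1} := ⟨by show t.re / 2 < t.re; linarith, by
    show ‖t‖ < ‖t‖ + 1; linarith⟩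
  have h1 : DifferentiableOn ℂ (FF a) {z : ℂ | t.re / 2 < z.re ∧ ‖z‖ < ‖t‖ + 1} :=
    differentiableOn_tsum_of_summable_norm
      (u := fun n : ℕ => (‖t‖ + 1) ^ 2 / (t.re / 2) ^ 2 * (1 / ((n : ℝ) + 1) ^ 2))
      (summ1.mul_left _)
      (fun n z hz => (term_diff a n (by have := hz.1; linarith)).differentiableWithinAt)
      (box_open _ _) (fun n z hz => term_le_box ha (half_pos ht0) hz.1 hz.2 n)
  exact (h1.differentiableAt ((box_open _ _).mem_nhds hbox)).differentiableWithinAt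

theorem FF_summable {a : ℕ → ℝ} (ha : ∀ n, |a (n + 1)| ≤ 1) {t : ℂ} (ht : 0 < t.re) :
    Summable (fun n : ℕ => (a (n + 1) : ℂ) / (t ^ 2 + ((n : ℂ) + 1) ^ 2)) :=
  Summable.of_norm_bounded (summ1.mul_left ((‖t‖ + 1) ^ 2 / (t.re / 2) ^ 2))
    (term_le_box ha (half_pos ht) (by linarith) (by linarith))

theorem norm_FF_le {a : ℕ → ℝ} (ha : ∀ n, |a (n + 1)| ≤ 1) {t : ℂ} (ht : 1 ≤ t.re) : ‖FF a t‖ ≤ nb := by
  have ht0 : 0 < t.re := by linarith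
  have hs := summ_term ht
  set g : ℤ → ℝ := fun n : ℤ => 1 / ‖t + n * I‖ ^ 2 with hg
  have hs1 : Summable (fun n : ℕ => g ((n : ℤ) + 1)) := by
    refine hs.comp_injective (i := fun n : ℕ => (n : ℤ) + 1) ?_
    intro m n h
    simp only at h
    omega
  have hs2 : Summable (fun n : ℕ => g (-((n : ℤ) + 1))) := by
    refine hs.comp_injective (i := fun n : ℕ => -((n : ℤ) + 1)) ?_
    intro m n h
    simp only at h
    omega
  have htot : ∑' n : ℕ, g ((n : ℤ) + 1) + ∑' n : ℕ, g (-((n : ℤ) + 1)) ≤ nb := by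
    have h1 := tsum_of_add_one_of_neg_add_one hs1 hs2
    have h2 := tsum_term_le ht
    have h3 : 0 ≤ g 0 := by rw [hg]; positivity
    have h4 : ∑' n : ℤ, g n = ∑' n : ℤ, 1 / ‖t + n * I‖ ^ 2 := rfl
    linarith
  have hterm : ∀ n : ℕ, ‖(a (n + 1) : ℂ) / (t ^ 2 + ((n : ℂ) + 1) ^ 2)‖ ≤
      g ((n : ℤ) + 1) + g (-((n : ℤ) + 1)) := by
    intro n
    rw [norm_div, Complex.norm_real, Real.norm_eq_abs, factor_eq, norm_mul]
    have e1 : t + (((n : ℤ) + 1 : ℤ) : ℂ) * I = t + ((n : ℂ) + 1) * I := by push_cast; ring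
    have e2 : t + ((-((n : ℤ) + 1) : ℤ) : ℂ) * I = t - ((n : ℂ) + 1) * I := by push_cast; ring
    rw [hg]
    simp only
    rw [e1, e2]
    have hne := den_ne ht0 n
    rw [factor_eq] at hne
    have p1 : 0 < ‖t + ((n : ℂ) + 1) * I‖ := norm_pos_iff.2 (left_ne_zero_of_mul hne)
    have p2 : 0 < ‖t - ((n : ℂ) + 1) * I‖ := norm_pos_iff.2 (right_ne_zero_of_mul hne)
    set x := ‖t + ((n : ℂ) + 1) * I‖
    set y := ‖t - ((n : ℂ) + 1) * I‖
    calc |a (n + 1)| / (x * y) ≤ 1 / (x * y) := div_le_div_of_nonneg_right (ha n) (by positivity)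
      _ ≤ 1 / x ^ 2 + 1 / y ^ 2 := by
          rw [div_add_div _ _ (by positivity) (by positivity), div_le_div_iff₀ (by positivity) (by positivity)]
          nlinarith [mul_pos p1 p2, sq_nonneg (x - y), mul_nonneg (mul_pos p1 p2).le (sq_nonneg (x - y)),
            mul_nonneg (mul_pos p1 p2).le (mul_pos p1 p2).le]
  have hsn := Summable.of_nonneg_of_le (fun n => norm_nonneg _) hterm (hs1.add hs2)
  refine (norm_tsum_le_tsum_norm hsn).trans ?_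
  refine (Summable.tsum_le_tsum hterm hsn (hs1.add hs2)).trans ?_
  rw [hs1.tsum_add hs2]
  exact htot

/-- The two sided sequence. -/
noncomputable def bb (a : ℕ → ℝ) (n : ℤ) : ℝ := if n = 0 then 0 else a n.natAbs

theorem abs_bb {a : ℕ → ℝ} (ha : ∀ n, |a (n + 1)| ≤ 1) (n : ℤ) : |bb a n| ≤ 1 := by
  unfold bb
  split_ifs with h
  · simp
  · have h1 := ha (n.natAbs - 1)
    rw [Nat.sub_add_cancel (by omega)] at h1
    exact h1

/-- The kernel sum is minus the derivative of `2 t F(t)`. -/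
theorem KK_eq_deriv {a : ℕ → ℝ} (ha : ∀ n, |a (n + 1)| ≤ 1) {t : ℂ} (ht : 1 ≤ t.re) :
    KK (bb a) t = -deriv (fun t => 2 * t * FF a t) t := by
  have ht0 : 0 < t.re := by linarith
  -- termwise differentiation
  have hfun : (fun t => 2 * t * FF a t) = fun t : ℂ => ∑' n : ℕ, 2 * t * ((a (n + 1) : ℂ) / (t ^ 2 + ((n : ℂ) + 1) ^ 2)) := by
    funext t
    unfold FF
    rw [tsum_mul_left]
  have hbox : t ∈ {z : ℂ | t.re / 2 < z.re ∧ ‖z‖ < ‖t‖ + 1} := ⟨by show t.re / 2 < t.re; linarith, by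
    show ‖t‖ < ‖t‖ + 1; linarith⟩
  have hd := hasSum_deriv_of_summable_norm
      (F := fun (n : ℕ) (t : ℂ) => 2 * t * ((a (n + 1) : ℂ) / (t ^ 2 + ((n : ℂ) + 1) ^ 2)))
      (u := fun n : ℕ => 2 * (‖t‖ + 1) * ((‖t‖ + 1) ^ 2 / (t.re / 2) ^ 2 * (1 / ((n : ℝ) + 1) ^ 2)))
      ((summ1.mul_left _).mul_left _)
      (fun n z hz => by
        have h1 := term_diff a n (t := z) (by have := hz.1; linarith)
        exact (((differentiableAt_const _).mul differentiableAt_id).mul h1).differentiableWithinAt)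
      (box_open _ _) (fun n z hz => by
        rw [norm_mul, norm_mul]
        have h1 := term_le_box ha (half_pos ht0) hz.1 hz.2 n
        have h2 : ‖(2 : ℂ)‖ * ‖z‖ ≤ 2 * (‖t‖ + 1) := by
          rw [Complex.norm_ofNat]
          have := hz.2
          linarith
        exact mul_le_mul h2 h1 (norm_nonneg _) (by positivity)) hbox
  have hderiv : ∀ n : ℕ, deriv (fun t : ℂ => 2 * t * ((a (n + 1) : ℂ) / (t ^ 2 + ((n : ℂ) + 1) ^ 2))) t =
      -((a (n + 1) : ℂ) / (t + ((n : ℂ) + 1) * I) ^ 2 + (a (n + 1) : ℂ) / (t - ((n : ℂ) + 1) * I) ^ 2) := by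
    intro n
    have hne := den_ne ht0 n
    have h1 : HasDerivAt (fun t : ℂ => t ^ 2 + ((n : ℂ) + 1) ^ 2) (2 * t) t := by
      have := (hasDerivAt_pow 2 t).add_const (((n : ℂ) + 1) ^ 2)
      simpa using this
    have h2 : HasDerivAt (fun t : ℂ => 2 * t * ((a (n + 1) : ℂ) / (t ^ 2 + ((n : ℂ) + 1) ^ 2)))
        (2 * ((a (n + 1) : ℂ) / (t ^ 2 + ((n : ℂ) + 1) ^ 2)) +
          2 * t * ((0 * (t ^ 2 + ((n : ℂ) + 1) ^ 2) - (a (n + 1) : ℂ) * (2 * t)) / (t ^ 2 + ((n : ℂ) + 1) ^ 2) ^ 2)) t := by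
      have h3 : HasDerivAt (fun t : ℂ => 2 * t) 2 t := by
        simpa using (hasDerivAt_id t).const_mul (2 : ℂ)
      exact h3.mul ((hasDerivAt_const t (a (n + 1) : ℂ)).div h1 hne)
    rw [h2.deriv]
    rw [factor_eq] at hne ⊢
    have p1 := left_ne_zero_of_mul hne
    have p2 := right_ne_zero_of_mul hne
    field_simp
    ring_nf
  simp only [hderiv] at hd
  rw [← hfun] at hd
  rw [← hd.tsum_eq, tsum_neg, neg_neg]
  unfold KK
  have hsum := summ_K (abs_bb ha) ht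
  set g : ℤ → ℂ := fun n : ℤ => (bb a n : ℂ) / (t + n * I) ^ 2 with hg
  have hs1 : Summable (fun n : ℕ => g ((n : ℤ) + 1)) := by
    refine hsum.comp_injective (i := fun n : ℕ => (n : ℤ) + 1) ?_
    intro m n h
    simp only at h
    omega
  have hs2 : Summable (fun n : ℕ => g (-((n : ℤ) + 1))) := by
    refine hsum.comp_injective (i := fun n : ℕ => -((n : ℤ) + 1)) ?_
    intro m n h
    simp only at h
    omega
  have h1 := tsum_of_add_one_of_neg_add_one hs1 hs2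
  show ∑' n : ℤ, g n = _
  rw [h1]
  have h0 : g 0 = 0 := by rw [hg]; simp [bb]
  rw [h0, add_zero, ← hs1.tsum_add hs2]
  refine tsum_congr fun n => ?_
  rw [hg]
  simp only
  have e3 : bb a ((n : ℤ) + 1) = a (n + 1) := by
    unfold bb
    rw [if_neg (by omega)]
    congr 1
  have e4 : bb a (-((n : ℤ) + 1)) = a (n + 1) := by
    unfold bb
    rw [if_neg (by omega)]
    congr 1
  have e1 : t + (((n : ℤ) + 1 : ℤ) : ℂ) * I = t + ((n : ℂ) + 1) * I := by push_cast; ring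
  have e2 : t + ((-((n : ℤ) + 1) : ℤ) : ℂ) * I = t - ((n : ℂ) + 1) * I := by push_cast; ring
  rw [e1, e2, e3, e4]

end Q195.SZ
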