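import Mathlib

set_option autoImplicit false

/-!
# Uniform bounds for the sums `∑ 1 / |t + i n| ^ 2`
-/

open Filter Topology Complex

namespace Q195.SZ

theorem summ0 : Summable (fun n : ℤ => 1 / (1 + (n : ℝ) ^ 2)) := by
  have h1 : Summable (fun n : ℤ => 1 / (n : ℝ) ^ 2) := Real.summable_one_div_int_pow.2 one_lt_two
  have h2 : Summable (fun n : ℤ => if n = 0 then (1 : ℝ) else 0) :=
    summable_of_ne_finset_zero (s := {0}) (fun n hn => by
      rw [if_neg (by simpa using hn)])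
  refine Summable.of_nonneg_of_le (fun n => by positivity) (fun n => ?_) (h1.add h2)
  by_cases hn : n = 0
  · subst hn; simp
  · rw [if_neg hn, add_zero]
    have h3 : (0 : ℝ) < (n : ℝ) ^ 2 := by
      have : (n : ℝ) ≠ 0 := by exact_mod_cast hn
      positivity
    exact one_div_le_one_div_of_le h3 (by linarith)

/-- The universal bound. -/
noncomputable def nb : ℝ := ∑' n : ℤ, 3 * (1 / (1 + (n : ℝ) ^ 2))

theorem nb_nonneg : 0 ≤ nb := tsum_nonneg fun n => by positivity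

theorem summ3 : Summable (fun n : ℤ => 3 * (1 / (1 + (n : ℝ) ^ 2))) := summ0.mul_left 3

theorem normSq_eq (t : ℂ) (n : ℤ) : ‖t + n * I‖ ^ 2 = t.re ^ 2 + (t.im + n) ^ 2 := by
  rw [Complex.sq_norm, Complex.normSq_apply]
  simp
  ring

theorem term_le {t : ℂ} (ht : 1 ≤ t.re) (n : ℤ) :
    1 / ‖t + n * I‖ ^ 2 ≤ 3 * (1 / (1 + ((n + ⌊t.im⌋ : ℤ) : ℝ) ^ 2)) := by
  rw [normSq_eq, ← mul_one_div]
  have h1 : (0 : ℝ) ≤ t.im - ⌊t.im⌋ := sub_nonneg.2 (Int.floor_le _)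
  have h2 : t.im - ⌊t.im⌋ < 1 := by linarith [Int.lt_floor_add_one t.im]
  set y := t.im - ⌊t.im⌋ with hy
  set m : ℝ := ((n + ⌊t.im⌋ : ℤ) : ℝ) with hm
  have h3 : t.im + n = y + m := by
    rw [hy, hm]; push_cast; ring
  rw [h3, mul_one_div, mul_one_div, div_le_div_iff₀ (by nlinarith [sq_nonneg (y + m)]) (by positivity)]
  nlinarith [sq_nonneg (y + m), sq_nonneg (m + 2 * y), mul_self_nonneg y]

theorem summ_term {t : ℂ} (ht : 1 ≤ t.re) : Summable (fun n : ℤ => 1 / ‖t + n * I‖ ^ 2) := by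
  refine Summable.of_nonneg_of_le (fun n => by positivity) (term_le ht) ?_
  exact (Equiv.addRight ⌊t.im⌋).summable_iff.2 summ3

theorem tsum_term_le {t : ℂ} (ht : 1 ≤ t.re) : ∑' n : ℤ, 1 / ‖t + n * I‖ ^ 2 ≤ nb := by
  refine (Summable.tsum_le_tsum (term_le ht) (summ_term ht)
    ((Equiv.addRight ⌊t.im⌋).summable_iff.2 summ3)).trans (le_of_eq ?_)
  exact (Equiv.addRight ⌊t.im⌋).tsum_eq (fun n : ℤ => 3 * (1 / (1 + (n : ℝ) ^ 2)))

/-- The kernel sum. -/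
noncomputable def KK (b : ℤ → ℝ) (t : ℂ) : ℂ := ∑' n : ℤ, (b n : ℂ) / (t + n * I) ^ 2

theorem norm_K_term {b : ℤ → ℝ} {B : ℝ} (hb : ∀ n, |b n| ≤ B) (t : ℂ) (n : ℤ) :
    ‖(b n : ℂ) / (t + n * I) ^ 2‖ ≤ B * (1 / ‖t + n * I‖ ^ 2) := by
  rw [norm_div, norm_pow, Complex.norm_real, Real.norm_eq_abs, mul_one_div]
  exact div_le_div_of_nonneg_right (hb n) (by positivity)

theorem summ_K {b : ℤ → ℝ} {B : ℝ} (hb : ∀ n, |b n| ≤ B) {t : ℂ} (ht : 1 ≤ t.re) :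
    Summable (fun n : ℤ => (b n : ℂ) / (t + n * I) ^ 2) :=
  Summable.of_norm_bounded ((summ_term ht).mul_left B) (norm_K_term hb t)

theorem norm_KK_le {b : ℤ → ℝ} {B : ℝ} (hB : 0 ≤ B) (hb : ∀ n, |b n| ≤ B) {t : ℂ} (ht : 1 ≤ t.re) :
    ‖KK b t‖ ≤ B * nb := by
  have h1 := norm_tsum_le_tsum_norm (Summable.of_nonneg_of_le (fun n => norm_nonneg _)
    (norm_K_term hb t) ((summ_term ht).mul_left B))
  refine h1.trans ?_
  refine (Summable.tsum_le_tsum (norm_K_term hb t) (Summable.of_nonneg_of_le (fun n => norm_nonneg _)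
    (norm_K_term hb t) ((summ_term ht).mul_left B)) ((summ_term ht).mul_left B)).trans ?_
  rw [tsum_mul_left]
  exact mul_le_mul_of_nonneg_left (tsum_term_le ht) hB

/-- Shifts. -/
theorem KK_shift (b : ℤ → ℝ) (N : ℤ) (t : ℂ) :
    KK (fun m => b (m + N)) t = KK b (t - N * I) := by
  unfold KK
  rw [← (Equiv.addRight N).tsum_eq (fun n : ℤ => (b n : ℂ) / (t - N * I + n * I) ^ 2)]
  refine tsum_congr fun m => ?_
  show (b (m + N) : ℂ) / (t + m * I) ^ 2 = (b (m + N) : ℂ) / (t - N * I + ((m + N : ℤ) : ℂ) * I) ^ 2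
  congr 2
  push_cast
  ring

end Q195.SZ
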